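import Mathlib.Data.Set.Card
import Mathlib.Data.Nat.Fib.Basic
import Mathlib.Algebra.BigOperators.Fin
import Mathlib.Algebra.Order.BigOperators.Group.Multiset
import Mathlib.Tactic

namespace Pool.Agent.Results.MP_4e7634_nt.BinaryPartitions

/-- The partitions of `n` into powers of two, as multisets of parts. -/
def parts (n : ℕ) : Set (Multiset ℕ) := {s | s.sum = n ∧ ∀ i ∈ s, ∃ k : ℕ, i = 2 ^ k}

/-- `bin n`: the number of partitions of `n` into powers of two (order ignored). -/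
noncomputable def bin (n : ℕ) : ℕ := (parts n).ncard

/-- The sequence `w`, extended by the constant `c` to negative arguments. -/
def ext (c : ℕ) (w : ℕ → ℕ) (m : ℤ) : ℕ := if m < 0 then c else w m.toNat

/-- `w` is a sequence of positive integers satisfying, for all `n ≥ k`,
`w n = ∑ i, w (n - w (n - u i)) + ∑ j, w (n - v j)`, where terms at negative arguments are read
as `c`. -/
def IsSolution {p q : ℕ} (u : Fin p → ℕ) (v : Fin q → ℕ) (c k : ℕ) (w : ℕ → ℕ) : Prop :=
  (∀ n, 1 ≤ w n) ∧ ∀ n : ℕ, k ≤ n →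
    w n = ∑ i, ext c w ((n : ℤ) - (ext c w ((n : ℤ) - (u i : ℤ)) : ℤ)) +
      ∑ j, ext c w ((n : ℤ) - (v j : ℤ))

/-! ### Binary partitions -/

theorem parts_zero : parts 0 = {0} := by
  ext s
  simp only [parts, Set.mem_ofPred_eq, Set.mem_singleton_iff]
  constructor
  · rintro ⟨h1, h2⟩
    rw [Multiset.sum_eq_zero_iff] at h1
    by_contra hne
    obtain ⟨i, hi⟩ := Multiset.exists_mem_of_ne_zero hne
    obtain ⟨k, hk⟩ := h2 i hi
    have := h1 i hi
    rw [hk] at this
    exact absurd this (by positivity)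
  · rintro rfl; simp

/-- Adding a part equal to `1`. -/
theorem cons_mem {n : ℕ} {s : Multiset ℕ} : (1 ::ₘ s) ∈ parts (n + 1) ↔ s ∈ parts n := by
  simp only [parts, Set.mem_ofPred_eq, Multiset.sum_cons, Multiset.mem_cons, forall_eq_or_imp]
  constructor
  · rintro ⟨h1, _, h3⟩; exact ⟨by omega, h3⟩
  · rintro ⟨h1, h3⟩; exact ⟨by omega, ⟨0, by simp⟩, h3⟩

theorem one_mem_of_odd {n : ℕ} {s : Multiset ℕ} (hs : s ∈ parts (2 * n + 1)) : 1 ∈ s := by
  by_contra hcon
  obtain ⟨h1, h2⟩ := hs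
  have hdvd : 2 ∣ s.sum := by
    apply Multiset.dvd_sum
    intro i hi
    obtain ⟨k, rfl⟩ := h2 i hi
    rcases k with _ | k
    · exact absurd hi (by simpa using hcon)
    · exact dvd_pow_self 2 (by omega)
  omega

theorem parts_odd (n : ℕ) : parts (2 * n + 1) = (fun s => 1 ::ₘ s) '' parts (2 * n) := by
  ext s
  constructor
  · intro hs
    obtain ⟨t, rfl⟩ := Multiset.exists_cons_of_mem (one_mem_of_odd hs)
    exact ⟨t, cons_mem.mp hs, rfl⟩
  · rintro ⟨t, ht, rfl⟩
    exact cons_mem.mpr ht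

theorem double_mem {n : ℕ} {s : Multiset ℕ} :
    s.map (fun i => 2 * i) ∈ parts (2 * n) ↔ s ∈ parts n := by
  simp only [parts, Set.mem_ofPred_eq, Multiset.mem_map]
  rw [Multiset.sum_map_mul_left, Multiset.map_id']
  constructor
  · rintro ⟨h1, h2⟩
    refine ⟨by omega, fun i hi => ?_⟩
    obtain ⟨k, hk⟩ := h2 (2 * i) ⟨i, hi, rfl⟩
    rcases k with _ | k
    · rw [pow_zero] at hk; omega
    · exact ⟨k, by rw [pow_succ] at hk; omega⟩
  · rintro ⟨h1, h2⟩
    refine ⟨by omega, ?_⟩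
    rintro _ ⟨i, hi, rfl⟩
    obtain ⟨k, hk⟩ := h2 i hi
    exact ⟨k + 1, by rw [hk, pow_succ]; ring⟩

theorem parts_even (n : ℕ) : parts (2 * n + 2) =
    (fun s => 1 ::ₘ s) '' parts (2 * n + 1) ∪ (fun s => s.map (fun i => 2 * i)) '' parts (n + 1) := by
  ext s
  constructor
  · intro hs
    by_cases h : 1 ∈ s
    · left
      obtain ⟨t, rfl⟩ := Multiset.exists_cons_of_mem h
      exact ⟨t, cons_mem.mp hs, rfl⟩
    · right
      have hdiv : (s.map (fun i => i / 2)).map (fun i => 2 * i) = s := by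
        rw [Multiset.map_map]
        conv_rhs => rw [← Multiset.map_id s]
        apply Multiset.map_congr rfl
        intro i hi
        obtain ⟨k, rfl⟩ := hs.2 i hi
        rcases k with _ | k
        · exact absurd hi (by simpa using h)
        · simp only [Function.comp, id]
          rw [pow_succ]; omega
      refine ⟨s.map (fun i => i / 2), ?_, hdiv⟩
      have h2 : 2 * n + 2 = 2 * (n + 1) := by ring
      rw [h2] at hs
      rw [← double_mem, hdiv]
      exact hs
  · rintro (⟨t, ht, rfl⟩ | ⟨t, ht, rfl⟩)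
    · exact cons_mem.mpr ht
    · have h2 : 2 * n + 2 = 2 * (n + 1) := by ring
      rw [h2]
      exact double_mem.mpr ht

theorem parts_finite (n : ℕ) : (parts n).Finite := by
  induction n using Nat.strong_induction_on with
  | _ n ih =>
    rcases Nat.even_or_odd' n with ⟨m, rfl | rfl⟩
    · rcases m with _ | m
      · simp only [mul_zero]
        rw [parts_zero]; exact Set.finite_singleton _
      · have h2 : 2 * (m + 1) = 2 * m + 2 := by ring
        rw [h2, parts_even]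
        exact ((ih (2 * m + 1) (by omega)).image _).union ((ih (m + 1) (by omega)).image _)
    · rw [parts_odd]
      exact (ih (2 * m) (by omega)).image _

theorem cons_inj : Function.Injective (fun s : Multiset ℕ => 1 ::ₘ s) := by
  intro s t h
  exact (Multiset.cons_inj_right 1).mp h

theorem double_inj : Function.Injective (fun s : Multiset ℕ => s.map (fun i => 2 * i)) :=
  Multiset.map_injective (fun a b h => by simpa using h)

theorem bin_zero : bin 0 = 1 := by rw [bin, parts_zero, Set.ncard_singleton]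

theorem bin_odd (n : ℕ) : bin (2 * n + 1) = bin (2 * n) := by
  rw [bin, parts_odd, Set.ncard_image_of_injective _ cons_inj, bin]

theorem bin_even (n : ℕ) : bin (2 * n + 2) = bin (2 * n + 1) + bin (n + 1) := by
  rw [bin, parts_even, Set.ncard_union_eq ?_ ((parts_finite _).image _) ((parts_finite _).image _),
    Set.ncard_image_of_injective _ cons_inj, Set.ncard_image_of_injective _ double_inj, bin, bin]
  rw [Set.disjoint_left]
  rintro s ⟨t, _, rfl⟩ ⟨t', _, h⟩
  have h1 : (1 : ℕ) ∈ (fun s : Multiset ℕ => s.map (fun i => 2 * i)) t' := by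
    rw [h]; exact Multiset.mem_cons_self 1 t
  simp only [Multiset.mem_map] at h1
  obtain ⟨a, _, ha⟩ := h1
  omega

/-- The recurrence `bin (n+2) = bin n + bin ⌊(n+2)/2⌋`. -/
theorem bin_rec (n : ℕ) : bin (n + 2) = bin n + bin ((n + 2) / 2) := by
  rcases Nat.even_or_odd' n with ⟨m, rfl | rfl⟩
  · rw [bin_even, bin_odd]
    congr 2
    omega
  · have h1 : 2 * m + 1 + 2 = 2 * (m + 1) + 1 := by ring
    have h2 : 2 * (m + 1) = 2 * m + 2 := by ring
    rw [h1, bin_odd, h2, bin_even]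
    congr 2
    omega

theorem bin_one : bin 1 = 1 := by
  have := bin_odd 0
  simpa [bin_zero] using this

theorem bin_lin (n : ℕ) : n + 1 ≤ 2 * bin n := by
  induction n using Nat.strong_induction_on with
  | _ n ih =>
    match n with
    | 0 => rw [bin_zero]; norm_num
    | 1 => rw [bin_one]
    | (m + 2) =>
      rw [bin_rec]
      have h1 := ih m (by omega)
      have h2 := ih ((m + 2) / 2) (by omega)
      omega

theorem bin_quad (n : ℕ) : n ^ 2 ≤ 16 * bin n := by
  induction n using Nat.strong_induction_on with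
  | _ n ih =>
    match n with
    | 0 => rw [bin_zero]; norm_num
    | 1 => rw [bin_one]; norm_num
    | (m + 2) =>
      rw [bin_rec]
      have h1 := ih m (by omega)
      have h2 := bin_lin ((m + 2) / 2)
      have h3 : m + 1 ≤ 2 * ((m + 2) / 2) := by omega
      nlinarith

/-! ### The solution -/

/-- The explicit solution of `w n = w (n - w (n-1)) + w (n - 10)`. -/
noncomputable def w (N : ℕ) : ℕ :=
  if N % 5 = 0 then 5
  else if N % 5 = 1 then 10 * Nat.fib (N / 5 + 5)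
  else if N % 5 = 2 then 3
  else if N % 5 = 3 then (if N / 5 = 0 then 1 else 5 * ((N / 5 + 1) / 2))
  else bin (N / 5)

theorem w0 (n : ℕ) : w (5 * n) = 5 := by
  rw [w, if_pos (by omega)]

theorem w1 (n : ℕ) : w (5 * n + 1) = 10 * Nat.fib (n + 5) := by
  rw [w, if_neg (by omega), if_pos (by omega)]
  congr 2
  omega

theorem w2 (n : ℕ) : w (5 * n + 2) = 3 := by
  rw [w, if_neg (by omega), if_neg (by omega), if_pos (by omega)]

theorem w3 (n : ℕ) (hn : 1 ≤ n) : w (5 * n + 3) = 5 * ((n + 1) / 2) := by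
  rw [w, if_neg (by omega), if_neg (by omega), if_neg (by omega), if_pos (by omega),
    if_neg (by omega)]
  have : (5 * n + 3) / 5 = n := by omega
  rw [this]

theorem w4 (n : ℕ) : w (5 * n + 4) = bin n := by
  rw [w, if_neg (by omega), if_neg (by omega), if_neg (by omega), if_neg (by omega)]
  congr 1
  omega

theorem bin_pos (n : ℕ) : 1 ≤ bin n := by
  have := bin_lin n
  omega

theorem w_pos (N : ℕ) : 1 ≤ w N := by
  unfold w
  split_ifs with h1 h2 h3 h4 h5
  · norm_num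
  · have : 0 < Nat.fib (N / 5 + 5) := Nat.fib_pos.mpr (by omega)
    omega
  · norm_num
  · norm_num
  · omega
  · exact bin_pos _

theorem ext_nonneg (c : ℕ) (w : ℕ → ℕ) (m : ℕ) : ext c w (m : ℤ) = w m := by
  rw [ext, if_neg (by omega)]; simp

theorem ext_neg (c : ℕ) (w : ℕ → ℕ) {m : ℤ} (h : m < 0) : ext c w m = c := by
  rw [ext, if_pos h]

theorem ext_sub (c : ℕ) (w : ℕ → ℕ) {a b m : ℕ} (h : a = m + b) :
    ext c w ((a : ℤ) - (b : ℤ)) = w m := by
  have : (a : ℤ) - (b : ℤ) = (m : ℤ) := by rw [h]; push_cast; ring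
  rw [this, ext_nonneg]

theorem w_solution : IsSolution ![1] ![10] 0 500 w := by
  refine ⟨w_pos, fun N hN => ?_⟩
  simp only [Fin.sum_univ_one, Matrix.cons_val_zero, Fin.isValue]
  obtain ⟨n, hn⟩ : ∃ n, n = N / 5 := ⟨_, rfl⟩
  have hn100 : 100 ≤ n := by omega
  obtain ⟨m, rfl⟩ : ∃ m, n = m + 2 := ⟨n - 2, by omega⟩
  have hcases : N = 5 * (m + 2) ∨ N = 5 * (m + 2) + 1 ∨ N = 5 * (m + 2) + 2 ∨
      N = 5 * (m + 2) + 3 ∨ N = 5 * (m + 2) + 4 := by omega
  rcases hcases with rfl | rfl | rfl | rfl | rfl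
  · -- residue 0
    have e1 : ext 0 w (((5 * (m + 2) : ℕ) : ℤ) - ((1 : ℕ) : ℤ)) = bin (m + 1) := by
      rw [ext_sub 0 w (m := 5 * (m + 1) + 4) (by ring), w4]
    have e2 : ext 0 w (((5 * (m + 2) : ℕ) : ℤ) - ((10 : ℕ) : ℤ)) = 5 := by
      rw [ext_sub 0 w (m := 5 * m) (by ring), w0]
    rw [e1, e2, w0, ext_neg]
    have h1 := bin_quad (m + 1)
    have h2 : 5 * (m + 2) < bin (m + 1) := by
      nlinarith
    have h3 : ((5 * (m + 2) : ℕ) : ℤ) < (bin (m + 1) : ℤ) := by exact_mod_cast h2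
    linarith
  · -- residue 1
    have e1 : ext 0 w (((5 * (m + 2) + 1 : ℕ) : ℤ) - ((1 : ℕ) : ℤ)) = 5 := by
      rw [ext_sub 0 w (m := 5 * (m + 2)) (by ring), w0]
    have e2 : ext 0 w (((5 * (m + 2) + 1 : ℕ) : ℤ) - ((10 : ℕ) : ℤ)) = 10 * Nat.fib (m + 5) := by
      rw [ext_sub 0 w (m := 5 * m + 1) (by ring), w1]
    rw [e1, e2, w1, ext_sub 0 w (m := 5 * (m + 1) + 1) (by ring), w1]
    have : Nat.fib (m + 2 + 5) = Nat.fib (m + 5) + Nat.fib (m + 1 + 5) := by
      rw [show m + 2 + 5 = (m + 5) + 2 by ring, Nat.fib_add_two]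
    rw [this]; ring
  · -- residue 2
    have e1 : ext 0 w (((5 * (m + 2) + 2 : ℕ) : ℤ) - ((1 : ℕ) : ℤ)) =
        10 * Nat.fib (m + 2 + 5) := by
      rw [ext_sub 0 w (m := 5 * (m + 2) + 1) (by ring), w1]
    have e2 : ext 0 w (((5 * (m + 2) + 2 : ℕ) : ℤ) - ((10 : ℕ) : ℤ)) = 3 := by
      rw [ext_sub 0 w (m := 5 * m + 2) (by ring), w2]
    rw [e1, e2, w2, ext_neg]
    have h1 : m + 2 + 5 ≤ Nat.fib (m + 2 + 5) := Nat.le_fib_self (by omega)
    have h2 : 5 * (m + 2) + 2 < 10 * Nat.fib (m + 2 + 5) := by omega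
    have h3 : ((5 * (m + 2) + 2 : ℕ) : ℤ) < ((10 * Nat.fib (m + 2 + 5) : ℕ) : ℤ) := by
      exact_mod_cast h2
    linarith
  · -- residue 3
    have e1 : ext 0 w (((5 * (m + 2) + 3 : ℕ) : ℤ) - ((1 : ℕ) : ℤ)) = 3 := by
      rw [ext_sub 0 w (m := 5 * (m + 2) + 2) (by ring), w2]
    have e2 : ext 0 w (((5 * (m + 2) + 3 : ℕ) : ℤ) - ((10 : ℕ) : ℤ)) = 5 * ((m + 1) / 2) := by
      rw [ext_sub 0 w (m := 5 * m + 3) (by ring), w3 m (by omega)]
    rw [e1, e2, w3 _ (by omega), ext_sub 0 w (m := 5 * (m + 2)) (by ring), w0]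
    omega
  · -- residue 4
    have e1 : ext 0 w (((5 * (m + 2) + 4 : ℕ) : ℤ) - ((1 : ℕ) : ℤ)) =
        5 * ((m + 2 + 1) / 2) := by
      rw [ext_sub 0 w (m := 5 * (m + 2) + 3) (by ring), w3 _ (by omega)]
    have e2 : ext 0 w (((5 * (m + 2) + 4 : ℕ) : ℤ) - ((10 : ℕ) : ℤ)) = bin m := by
      rw [ext_sub 0 w (m := 5 * m + 4) (by ring), w4]
    rw [e1, e2, w4, ext_sub 0 w (m := 5 * ((m + 2) / 2) + 4) (by omega), w4, bin_rec]
    ring

/-- The sequence of binary partition numbers is a subsequence along an arithmetic progression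
(`5n + 4`) of a solution of the nested recurrence `w n = w (n - w (n-1)) + w (n - 10)`
(valid for `n ≥ 500`, negative arguments read as `0`). -/
theorem result :
    (∃ w : ℕ → ℕ, IsSolution ![1] ![10] 0 500 w ∧ ∀ n, w (5 * n + 4) = bin n) ∧
    ∃ (p q : ℕ) (u : Fin p → ℕ) (v : Fin q → ℕ) (c k : ℕ) (w : ℕ → ℕ) (a b : ℕ),
      (∀ i, 1 ≤ u i) ∧ (∀ j, 1 ≤ v j) ∧ IsSolution u v c k w ∧ 1 ≤ a ∧
        ∀ n, w (a * n + b) = bin n :=
  ⟨⟨w, w_solution, w4⟩, 1, 1, ![1], ![10], 0, 500, w, 5, 4, by simp, by simp, w_solution,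
    by norm_num, w4⟩

end Pool.Agent.Results.MP_4e7634_nt.BinaryPartitions
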